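import Pool.Agent.Helper4.TL.StD

/-!
# Project TL, module Tri: triangular system of symbols modulo 5
-/

set_option autoImplicit false

namespace Pool.Agent.Helper58.TL

open Pool.Agent.Helper4.TL
open Pool.Agent.Helper14.W5
open Pool.Agent.Helper14.CV (Homog EqC act Tl)
open Pool.Agent.Helper28.WK (Tw evw)

section comm

variable {E : Type} [Ring E] [Algebra (ZMod 5) E]

private theorem reorder_Tri (D Y : E) (h : D * Y = Y * D) (c i j : ℕ) :
    ((3 : ZMod 5) • (D ^ 2 + Y ^ 2)) ^ c * ((2 : ZMod 5) • (D * Y)) ^ i *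
      ((4 : ZMod 5) • (D * Y * (D ^ 4 + Y ^ 4))) ^ j =
    ((3 : ZMod 5) ^ c * 2 ^ i * 4 ^ j) •
      ((D ^ 2 + Y ^ 2) ^ c * (D ^ 4 + Y ^ 4) ^ j * (D ^ (i + j) * Y ^ (i + j))) := by
  have hDY : Commute D Y := h
  have hDC : Commute D (D ^ 4 + Y ^ 4) :=
    ((Commute.refl D).pow_right 4).add_right (hDY.pow_right 4)
  have hYC : Commute Y (D ^ 4 + Y ^ 4) :=
    (hDY.symm.pow_right 4).add_right ((Commute.refl Y).pow_right 4)
  have hPC : Commute (D * Y) (D ^ 4 + Y ^ 4) := hDC.mul_left hYC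
  generalize D ^ 2 + Y ^ 2 = A
  generalize D ^ 4 + Y ^ 4 = C at hPC ⊢
  rw [smul_pow, smul_pow, smul_pow, smul_mul_smul_comm, smul_mul_smul_comm, hPC.mul_pow]
  congr 1
  have h2 : (D * Y) ^ (i + j) * C ^ j = C ^ j * (D * Y) ^ (i + j) := (hPC.pow_pow _ _).eq
  calc A ^ c * (D * Y) ^ i * ((D * Y) ^ j * C ^ j)
      = A ^ c * ((D * Y) ^ (i + j) * C ^ j) := by
        rw [pow_add]
        simp only [mul_assoc]
    _ = A ^ c * C ^ j * (D ^ (i + j) * Y ^ (i + j)) := by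
        rw [h2, hDY.mul_pow]
        simp only [mul_assoc]

end comm

section main

variable {r s : ℕ}

private theorem dy_pow_Tri (hBb : S5Bb) (p q m : ℕ) (hp : p < 5 ^ r) (hq : m + q < 5 ^ s) :
    (dY ^ m : Module.End (ZMod 5) (Fn5 (5 ^ r) (5 ^ s))) (bb5 p (m + q)) = bb5 p q := by
  induction m with
  | zero =>
    rw [pow_zero, zero_add]
    rfl
  | succ m ih =>
    have h1 : m + 1 + q = (m + q) + 1 := by ring
    rw [pow_succ, Module.End.mul_apply, h1,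
      (hBb r s).2.2.1 p (m + q) hp (by omega)]
    exact ih (by omega)

private theorem dx_pow_Tri (hBb : S5Bb) (p q m : ℕ) (hq : q < 5 ^ s) (hp : m + p < 5 ^ r) :
    (dX ^ m : Module.End (ZMod 5) (Fn5 (5 ^ r) (5 ^ s))) (bb5 (m + p) q) = bb5 p q := by
  induction m with
  | zero =>
    rw [pow_zero, zero_add]
    rfl
  | succ m ih =>
    have h1 : m + 1 + p = (m + p) + 1 := by ring
    rw [pow_succ, Module.End.mul_apply, h1,
      (hBb r s).2.1 (m + p) q (by omega) hq]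
    exact ih (by omega)

private theorem dy_kill_Tri (hBb : S5Bb) (p q m : ℕ) (hp : p < 5 ^ r) (hq : q < 5 ^ s)
    (h : q < m) :
    (dY ^ m : Module.End (ZMod 5) (Fn5 (5 ^ r) (5 ^ s))) (bb5 p q) = 0 := by
  obtain ⟨c, rfl⟩ : ∃ c, m = c + (1 + q) := ⟨m - (1 + q), by omega⟩
  rw [pow_add, pow_add, Module.End.mul_apply, Module.End.mul_apply]
  have h1 := dy_pow_Tri (r := r) (s := s) hBb p 0 q hp (by omega)
  rw [add_zero] at h1
  rw [h1, pow_one, (hBb r s).2.2.2.2.1 p hp, map_zero]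

private theorem dx_kill_Tri (hBb : S5Bb) (p q m : ℕ) (hp : p < 5 ^ r) (hq : q < 5 ^ s)
    (h : p < m) :
    (dX ^ m : Module.End (ZMod 5) (Fn5 (5 ^ r) (5 ^ s))) (bb5 p q) = 0 := by
  obtain ⟨c, rfl⟩ : ∃ c, m = c + (1 + p) := ⟨m - (1 + p), by omega⟩
  rw [pow_add, pow_add, Module.End.mul_apply, Module.End.mul_apply]
  have h1 := dx_pow_Tri (r := r) (s := s) hBb 0 q p hq (by omega)
  rw [add_zero] at h1
  rw [h1, pow_one, (hBb r s).2.2.2.1 q hq, map_zero]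

/-- One step of a factor `dX^k + dY^k`. -/
private theorem c_step_Tri (hBb : S5Bb) (k p : ℕ) (hk : 0 < k) (hp : k + p < 5 ^ r)
    (hs : 0 < 5 ^ s) :
    (dX ^ k + dY ^ k : Module.End (ZMod 5) (Fn5 (5 ^ r) (5 ^ s))) (bb5 (k + p) 0) =
      bb5 p 0 := by
  rw [LinearMap.add_apply, dx_pow_Tri hBb p 0 k hs hp,
    dy_kill_Tri hBb (k + p) 0 k hp hs hk, add_zero]

private theorem c_pow_Tri (hBb : S5Bb) (k p m : ℕ) (hk : 0 < k) (hp : k * m + p < 5 ^ r)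
    (hs : 0 < 5 ^ s) :
    ((dX ^ k + dY ^ k) ^ m : Module.End (ZMod 5) (Fn5 (5 ^ r) (5 ^ s)))
      (bb5 (k * m + p) 0) = bb5 p 0 := by
  induction m with
  | zero =>
    rw [pow_zero, mul_zero, zero_add]
    rfl
  | succ m ih =>
    have h1 : k * (m + 1) + p = k + (k * m + p) := by ring
    have h2 : k + (k * m + p) < 5 ^ r := by rw [← h1]; exact hp
    rw [pow_succ, Module.End.mul_apply, h1, c_step_Tri hBb k (k * m + p) hk h2 hs]
    exact ih (by omega)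

/-- The span of the `bb5 a b` with `b` odd. -/
private def So_Tri (r s : ℕ) : Submodule (ZMod 5) (Fn5 (5 ^ r) (5 ^ s)) :=
  Submodule.span (ZMod 5) {F | ∃ a b : ℕ, a < 5 ^ r ∧ b < 5 ^ s ∧ b % 2 = 1 ∧ F = bb5 a b}

private theorem so_mem_Tri (a b : ℕ) (ha : a < 5 ^ r) (hb : b < 5 ^ s) (h : b % 2 = 1) :
    (bb5 a b : Fn5 (5 ^ r) (5 ^ s)) ∈ So_Tri r s :=
  Submodule.subset_span ⟨a, b, ha, hb, h, rfl⟩

private theorem so_val_Tri (F : Fn5 (5 ^ r) (5 ^ s)) (h : F ∈ So_Tri r s) : F 0 0 = 0 := by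
  refine Submodule.span_induction (p := fun F _ => F 0 0 = 0) ?_ ?_ ?_ ?_ h
  · rintro F ⟨a, b, -, -, hb, rfl⟩
    obtain ⟨b, rfl⟩ : ∃ b', b = b' + 1 := ⟨b - 1, by omega⟩
    simp [bb5]
  · rfl
  · intro F G _ _ hF hG
    rw [Pi.add_apply, Pi.add_apply, hF, hG, add_zero]
  · intro c F _ hF
    rw [Pi.smul_apply, Pi.smul_apply, hF, smul_zero]

private theorem so_dx_Tri (hBb : S5Bb) (k : ℕ) (F : Fn5 (5 ^ r) (5 ^ s)) (h : F ∈ So_Tri r s) :
    (dX ^ k : Module.End (ZMod 5) (Fn5 (5 ^ r) (5 ^ s))) F ∈ So_Tri r s := by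
  refine Submodule.span_induction
    (p := fun F _ => (dX ^ k : Module.End (ZMod 5) (Fn5 (5 ^ r) (5 ^ s))) F ∈ So_Tri r s)
    ?_ ?_ ?_ ?_ h
  · rintro F ⟨a, b, ha, hb, hodd, rfl⟩
    rcases lt_or_ge a k with hak | hak
    · rw [dx_kill_Tri hBb a b k ha hb hak]
      exact Submodule.zero_mem _
    · obtain ⟨p, rfl⟩ : ∃ p, a = k + p := ⟨a - k, by omega⟩
      rw [dx_pow_Tri hBb p b k hb ha]
      exact so_mem_Tri p b (by omega) hb hodd
  · rw [map_zero]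
    exact Submodule.zero_mem _
  · intro F G _ _ hF hG
    rw [map_add]
    exact Submodule.add_mem _ hF hG
  · intro c F _ hF
    rw [map_smul]
    exact Submodule.smul_mem _ _ hF

private theorem so_dy_Tri (hBb : S5Bb) (k : ℕ) (hk : k % 2 = 0) (F : Fn5 (5 ^ r) (5 ^ s))
    (h : F ∈ So_Tri r s) :
    (dY ^ k : Module.End (ZMod 5) (Fn5 (5 ^ r) (5 ^ s))) F ∈ So_Tri r s := by
  refine Submodule.span_induction
    (p := fun F _ => (dY ^ k : Module.End (ZMod 5) (Fn5 (5 ^ r) (5 ^ s))) F ∈ So_Tri r s)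
    ?_ ?_ ?_ ?_ h
  · rintro F ⟨a, b, ha, hb, hodd, rfl⟩
    rcases lt_or_ge b k with hbk | hbk
    · rw [dy_kill_Tri hBb a b k ha hb hbk]
      exact Submodule.zero_mem _
    · obtain ⟨q, rfl⟩ : ∃ q, b = k + q := ⟨b - k, by omega⟩
      rw [dy_pow_Tri hBb a q k ha hb]
      exact so_mem_Tri a q ha (by omega) (by omega)
  · rw [map_zero]
    exact Submodule.zero_mem _
  · intro F G _ _ hF hG
    rw [map_add]
    exact Submodule.add_mem _ hF hG
  · intro c F _ hF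
    rw [map_smul]
    exact Submodule.smul_mem _ _ hF

private theorem so_c_Tri (hBb : S5Bb) (k m : ℕ) (hk : k % 2 = 0) (F : Fn5 (5 ^ r) (5 ^ s))
    (h : F ∈ So_Tri r s) :
    ((dX ^ k + dY ^ k) ^ m : Module.End (ZMod 5) (Fn5 (5 ^ r) (5 ^ s))) F ∈ So_Tri r s := by
  induction m generalizing F with
  | zero =>
    rw [pow_zero]
    exact h
  | succ m ih =>
    rw [pow_succ, Module.End.mul_apply]
    refine ih _ ?_
    rw [LinearMap.add_apply]
    exact Submodule.add_mem _ (so_dx_Tri hBb k F h) (so_dy_Tri hBb k hk F h)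

private theorem low_pow_Tri (hLow0 : S5Low0) (O : Module.End (ZMod 5) (Fn5 (5 ^ r) (5 ^ s)))
    (k : ℤ) (h : Lw O k) (i : ℕ) : Lw (O ^ i) ((i : ℤ) * k) := by
  induction i with
  | zero =>
    rw [pow_zero, Nat.cast_zero, zero_mul]
    exact (hLow0 r s).2.2.2.2.2.1
  | succ i ih =>
    have h1 : ((i + 1 : ℕ) : ℤ) * k = (i : ℤ) * k + k := by
      push_cast
      ring
    rw [pow_succ, h1]
    exact (hLow0 r s).1 _ _ _ _ ih h

private theorem low_P_Tri (hLow0 : S5Low0) :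
    Lw (dX * dY : Module.End (ZMod 5) (Fn5 (5 ^ r) (5 ^ s))) 2 :=
  (hLow0 r s).1 _ _ _ _ (hLow0 r s).2.2.2.2.2.2.1 (hLow0 r s).2.2.2.2.2.2.2.1

private theorem low_C_Tri (hLow0 : S5Low0) (k : ℕ) :
    Lw (dX ^ k + dY ^ k : Module.End (ZMod 5) (Fn5 (5 ^ r) (5 ^ s))) (k : ℤ) := by
  have h1 := low_pow_Tri hLow0 _ _ (hLow0 r s).2.2.2.2.2.2.1 k
  have h2 := low_pow_Tri hLow0 _ _ (hLow0 r s).2.2.2.2.2.2.2.1 k
  rw [mul_one] at h1 h2
  exact (hLow0 r s).2.1 _ _ _ h1 h2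

private theorem low_Qo_Tri (hLow0 : S5Low0) :
    Lw (Qo : Module.End (ZMod 5) (Fn5 (5 ^ r) (5 ^ s))) 2 :=
  (hLow0 r s).2.2.1 _ _ _ (low_P_Tri hLow0)

private theorem low_Lo_Tri (hLow0 : S5Low0) :
    Lw (LoE : Module.End (ZMod 5) (Fn5 (5 ^ r) (5 ^ s))) 6 := by
  have h2 := (hLow0 r s).1 _ _ _ _ (low_P_Tri hLow0) (low_C_Tri hLow0 4)
  have h3 : (2 : ℤ) + ((4 : ℕ) : ℤ) = 6 := by norm_num
  rw [h3] at h2
  exact (hLow0 r s).2.2.1 _ _ _ h2

private theorem low_Mo_Tri (hLow0 : S5Low0) :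
    Lw (MoE : Module.End (ZMod 5) (Fn5 (5 ^ r) (5 ^ s))) 2 := by
  have h2 := low_C_Tri (r := r) (s := s) hLow0 2
  have h3 : ((2 : ℕ) : ℤ) = 2 := by norm_num
  rw [h3] at h2
  exact (hLow0 r s).2.2.1 _ _ _ h2

private theorem low_all_Tri (hLow0 : S5Low0) (c i j : ℕ) :
    Lw (MoE ^ c * Qo ^ i * LoE ^ j : Module.End (ZMod 5) (Fn5 (5 ^ r) (5 ^ s)))
      ((c : ℤ) * 2 + (i : ℤ) * 2 + (j : ℤ) * 6) :=
  (hLow0 r s).1 _ _ _ _ ((hLow0 r s).1 _ _ _ _ (low_pow_Tri hLow0 _ _ (low_Mo_Tri hLow0) c)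
    (low_pow_Tri hLow0 _ _ (low_Qo_Tri hLow0) i)) (low_pow_Tri hLow0 _ _ (low_Lo_Tri hLow0) j)

private theorem form_Tri (hLow0 : S5Low0) (c i j : ℕ) :
    (MoE ^ c * Qo ^ i * LoE ^ j : Module.End (ZMod 5) (Fn5 (5 ^ r) (5 ^ s))) =
      ((3 : ZMod 5) ^ c * 2 ^ i * 4 ^ j) •
      ((dX ^ 2 + dY ^ 2) ^ c * (dX ^ 4 + dY ^ 4) ^ j * (dX ^ (i + j) * dY ^ (i + j))) :=
  reorder_Tri _ _ (hLow0 r s).2.2.2.2.2.2.2.2.1 c i j

private theorem kill_Tri (hLow0 : S5Low0) (hBb : S5Bb) (c i j al be : ℕ) (hal : al < 5 ^ r)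
    (hbe : be < 5 ^ s) (h : be < i + j) :
    (MoE ^ c * Qo ^ i * LoE ^ j : Module.End (ZMod 5) (Fn5 (5 ^ r) (5 ^ s))) (bb5 al be) = 0 := by
  rw [form_Tri hLow0, LinearMap.smul_apply, Module.End.mul_apply, Module.End.mul_apply (dX ^ _),
    dy_kill_Tri hBb al be (i + j) hal hbe h, map_zero, map_zero, smul_zero]

private theorem odd_Tri (hLow0 : S5Low0) (hBb : S5Bb) (c i j p q : ℕ)
    (hal : i + j + p < 5 ^ r) (hbe : i + j + q < 5 ^ s) (hq : q % 2 = 1) :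
    ((MoE ^ c * Qo ^ i * LoE ^ j : Module.End (ZMod 5) (Fn5 (5 ^ r) (5 ^ s)))
      (bb5 (i + j + p) (i + j + q))) 0 0 = 0 := by
  have h1 : (MoE ^ c * Qo ^ i * LoE ^ j : Module.End (ZMod 5) (Fn5 (5 ^ r) (5 ^ s)))
      (bb5 (i + j + p) (i + j + q)) ∈ So_Tri r s := by
    rw [form_Tri hLow0, LinearMap.smul_apply, Module.End.mul_apply,
      Module.End.mul_apply (dX ^ _),
      dy_pow_Tri hBb (i + j + p) q (i + j) hal hbe,
      dx_pow_Tri hBb p q (i + j) (by omega) hal, Module.End.mul_apply]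
    exact Submodule.smul_mem _ _ (so_c_Tri hBb 2 c (by norm_num) _
      (so_c_Tri hBb 4 j (by norm_num) _ (so_mem_Tri p q (by omega) (by omega) hq)))
  exact so_val_Tri _ h1

private theorem val_Tri (hLow0 : S5Low0) (hBb : S5Bb) (c i j : ℕ)
    (hal : i + 5 * j + 2 * c < 5 ^ r) (hbe : i + j < 5 ^ s) :
    ((MoE ^ c * Qo ^ i * LoE ^ j : Module.End (ZMod 5) (Fn5 (5 ^ r) (5 ^ s)))
      (bb5 (i + 5 * j + 2 * c) (i + j))) 0 0 ≠ 0 := by
  have hs0 : 0 < 5 ^ s := by positivity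
  have h1 := dy_pow_Tri (r := r) (s := s) hBb (i + 5 * j + 2 * c) 0 (i + j) hal (by omega)
  rw [add_zero] at h1
  have h2 := dx_pow_Tri (r := r) (s := s) hBb (4 * j + 2 * c) 0 (i + j) hs0 (by omega)
  have h2' : (i + j) + (4 * j + 2 * c) = i + 5 * j + 2 * c := by ring
  rw [h2'] at h2
  have h3 := c_pow_Tri (r := r) (s := s) hBb 4 (2 * c) j (by norm_num) (by omega) hs0
  have h4 := c_pow_Tri (r := r) (s := s) hBb 2 0 c (by norm_num) (by omega) hs0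
  rw [add_zero] at h4
  have h5 : ((bb5 0 0 : Fn5 (5 ^ r) (5 ^ s)) 0 0) = 1 := by simp [bb5]
  have h6 : (MoE ^ c * Qo ^ i * LoE ^ j : Module.End (ZMod 5) (Fn5 (5 ^ r) (5 ^ s)))
      (bb5 (i + 5 * j + 2 * c) (i + j)) =
      ((3 : ZMod 5) ^ c * 2 ^ i * 4 ^ j) • (bb5 0 0 : Fn5 (5 ^ r) (5 ^ s)) := by
    rw [form_Tri hLow0, LinearMap.smul_apply, Module.End.mul_apply,
      Module.End.mul_apply (dX ^ _), h1, h2, Module.End.mul_apply, h3, h4]
  have h7 : (4 : ZMod 5) ≠ 0 := by decide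
  have h8 : (2 : ZMod 5) ≠ 0 := by decide
  have h9 : (3 : ZMod 5) ≠ 0 := by decide
  have hp5 : Fact (Nat.Prime 5) := ⟨by norm_num⟩
  rw [h6, Pi.smul_apply, Pi.smul_apply, h5, smul_eq_mul, mul_one]
  exact mul_ne_zero (mul_ne_zero (pow_ne_zero _ h9) (pow_ne_zero _ h8)) (pow_ne_zero _ h7)

/-- The value at the origin only depends on the leading form. -/
private theorem lead_Tri (hLow0 : S5Low0) (O : Module.End (ZMod 5) (Fn5 (5 ^ r) (5 ^ s)))
    (k : ℤ) (hO : Lw O k) (F L : Fn5 (5 ^ r) (5 ^ s)) (h : F - L ∈ Wd5 (k - 1)) :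
    O F = O L := by
  have h1 := hO _ _ h
  have h2 : k - 1 - k = -1 := by ring
  rw [h2] at h1
  have h3 := (hLow0 r s).2.2.2.2.2.2.2.2.2.2.2.2.2 _ h1
  rw [map_sub] at h3
  exact sub_eq_zero.1 h3

end main

/-- TRI. -/
theorem hTri (hl : S5Low0) (hb : S5Bb) (hd : TLed) (hx : TEx) (hi : TItr) : TTri := by
  intro r s c i j hc hr hs
  have hev : Even ((i + 5 * j + 2 * c) + (i + j)) := ⟨i + 3 * j + c, by ring⟩
  obtain ⟨F, hRel, hF0, hF1⟩ := hd r s (i + 5 * j + 2 * c) (i + j) hr hs hev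
  obtain ⟨G, hG, hGF⟩ := hx (ZMod 5) inferInstance r s F hRel
  have hdd : ((i + 5 * j + 2 * c : ℕ) : ℤ) + ((i + j : ℕ) : ℤ) =
      ((2 * i + 6 * j + 2 * c : ℕ) : ℤ) := by
    push_cast
    ring
  rw [hdd] at hF0 hF1
  have hbb := (hb r s).1 _ _ hr hs
  rw [hdd] at hbb
  have hF0' : F 0 ∈ Wd5 ((2 * i + 6 * j + 2 * c : ℕ) : ℤ) := by
    have h1 : F 0 = (F 0 - bb5 (i + 5 * j + 2 * c) (i + j)) +
        bb5 (i + 5 * j + 2 * c) (i + j) := by
      rw [sub_add_cancel]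
    rw [h1]
    exact Submodule.add_mem _ ((hl r s).2.2.2.2.1 _ _ (by omega) hF0) hbb
  have hI := hi r s G (2 * i + 6 * j + 2 * c) hG
    (by rw [hGF 0]; exact hF0') (by rw [hGF 1]; exact hF1)
  have hgt : ∀ c' i' j' : ℕ, c' ≤ 1 → 2 * i + 6 * j + 2 * c < 2 * i' + 6 * j' + 2 * c' →
      evE (2 * 5 ^ r) G c' i' j' = 0 := by
    intro c' i' j' hc' h
    rcases Nat.le_one_iff_eq_zero_or_eq_one.1 hc' with rfl | rfl
    · exact (hI i' j').1 (by omega)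
    · exact (hI i' j').2.2.1 (by omega)
  have hval : ∀ c' i' j' : ℕ, c' ≤ 1 → 2 * i' + 6 * j' + 2 * c' = 2 * i + 6 * j + 2 * c →
      evE (2 * 5 ^ r) G c' i' j' =
        ((MoE ^ c' * Qo ^ i' * LoE ^ j' : Module.End (ZMod 5) (Fn5 (5 ^ r) (5 ^ s)))
          (bb5 (i + 5 * j + 2 * c) (i + j))) 0 0 := by
    intro c' i' j' hc' h
    have h1 := low_all_Tri (r := r) (s := s) hl c' i' j'
    have h2 : ((c' : ℤ) * 2 + (i' : ℤ) * 2 + (j' : ℤ) * 6) =
        ((2 * i + 6 * j + 2 * c : ℕ) : ℤ) := by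
      rw [← h]
      push_cast
      ring
    rw [h2] at h1
    have h3 := lead_Tri hl _ _ h1 _ _ hF0
    rw [← h3]
    rcases Nat.le_one_iff_eq_zero_or_eq_one.1 hc' with rfl | rfl
    · rw [(hI i' j').2.1 (by omega), hGF 0, pow_zero, one_mul]
    · rw [(hI i' j').2.2.2 (by omega), hGF 0, pow_one]
  refine ⟨G, hG, ?_, ?_⟩
  · rw [hval c i j hc rfl]
    exact val_Tri hl hb c i j hr hs
  · intro c' i' j' hc' hne
    rcases lt_trichotomy (2 * i' + 6 * j' + 2 * c') (2 * i + 6 * j + 2 * c) with h | h | h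
    · exact Or.inl h
    · right
      have hle : i' + j' ≤ i + j := by
        by_contra hcon
        apply hne
        rw [hval c' i' j' hc' h, kill_Tri hl hb _ _ _ _ _ hr hs (by omega)]
        rfl
      refine ⟨h, ?_, hle⟩
      by_contra hcc
      apply hne
      rw [hval c' i' j' hc' h]
      have hp1 : i + 5 * j + 2 * c = i' + j' + (i + 5 * j + 2 * c - (i' + j')) := by omega
      have hq1 : i + j = i' + j' + (i + j - (i' + j')) := by omega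
      have hq2 : (i + j - (i' + j')) % 2 = 1 := by omega
      have h5 := odd_Tri hl hb c' i' j' (i + 5 * j + 2 * c - (i' + j')) (i + j - (i' + j'))
        (by rw [← hp1]; exact hr) (by rw [← hq1]; exact hs) hq2
      rw [← hp1, ← hq1] at h5
      exact h5
    · exact absurd (hgt c' i' j' hc' h) hne

end Pool.Agent.Helper58.TL
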